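import Mathlib

/-!
# Equal lazy burning numbers do not force equal burning numbers

A hypergraph on five vertices and two proportions `p = 1/3`, `q = 1/2` with equal lazy burning
numbers and different (round-based) burning numbers.
-/

namespace Pool.Agent.Results.MP_6677ae_co.EqualLazyDifferentBurning

open Finset

variable {V : Type} [Fintype V] [DecidableEq V]

/-- One application of the spread rule with proportion `p`: if at least `⌈p |e|⌉` vertices of an
edge `e` are on fire, then every vertex of `e` catches fire; burning vertices stay on fire. -/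
noncomputable def spread (p : ℝ) (E : Finset (Finset V)) (F : Finset V) : Finset V :=
  F ∪ (E.filter (fun e => ⌈p * (e.card : ℝ)⌉₊ ≤ (e ∩ F).card)).biUnion id

/-- The set of burning vertices at the end of round `r` when the player sets the vertices
`u 0, u 1, ...` on fire in rounds `1, 2, ...`. -/
noncomputable def fire (p : ℝ) (E : Finset (Finset V)) (u : ℕ → V) : ℕ → Finset V
  | 0 => ∅
  | r + 1 => insert (u r) (spread p E (fire p E u r))

/-- `u 0, ..., u (k - 1)` is a burning sequence of length `k`: each chosen vertex is not yet on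
fire, and at the end of round `k` everything is on fire. -/
def IsBurningSequence (p : ℝ) (E : Finset (Finset V)) (k : ℕ) (u : ℕ → V) : Prop :=
  (∀ r < k, u r ∉ fire p E u r) ∧ fire p E u k = univ

/-- The burning number: the least length of a burning sequence. -/
noncomputable def burningNumber (p : ℝ) (E : Finset (Finset V)) : ℕ :=
  sInf {k | ∃ u : ℕ → V, IsBurningSequence p E k u}

/-- `S` is a lazy burning set: starting from `S`, the spread rule eventually burns everything. -/
def IsLazyBurningSet (p : ℝ) (E : Finset (Finset V)) (S : Finset V) : Prop :=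
  ∃ t : ℕ, (spread p E)^[t] S = univ

/-- The lazy burning number: the least size of a lazy burning set. -/
noncomputable def lazyNumber (p : ℝ) (E : Finset (Finset V)) : ℕ :=
  sInf {k | ∃ S : Finset V, S.card = k ∧ IsLazyBurningSet p E S}

/-- The path `0 - 1 - 2 - 3 - 4` together with the two edges `{0,1,2}` and `{2,3,4}`. -/
def E5 : Finset (Finset (Fin 5)) :=
  {{0, 1}, {1, 2}, {2, 3}, {3, 4}, {0, 1, 2}, {2, 3, 4}}

/-- Computable version of the spread rule, with threshold `1` for the two-element edges and
threshold `c` for the other edges. -/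
def spreadC (c : ℕ) (F : Finset (Fin 5)) : Finset (Fin 5) :=
  F ∪ (E5.filter (fun e => (if e.card = 2 then 1 else c) ≤ (e ∩ F).card)).biUnion id

lemma ceil_third_two : ⌈(1 / 3 : ℝ) * ((2 : ℕ) : ℝ)⌉₊ = 1 := by
  rw [Nat.ceil_eq_iff (by norm_num)]; norm_num

lemma ceil_third_three : ⌈(1 / 3 : ℝ) * ((3 : ℕ) : ℝ)⌉₊ = 1 := by
  rw [Nat.ceil_eq_iff (by norm_num)]; norm_num

lemma ceil_half_two : ⌈(1 / 2 : ℝ) * ((2 : ℕ) : ℝ)⌉₊ = 1 := by
  rw [Nat.ceil_eq_iff (by norm_num)]; norm_num

lemma ceil_half_three : ⌈(1 / 2 : ℝ) * ((3 : ℕ) : ℝ)⌉₊ = 2 := by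
  rw [Nat.ceil_eq_iff (by norm_num)]; norm_num

lemma card_E5 : ∀ e ∈ E5, e.card = 2 ∨ e.card = 3 := by decide

lemma spread_third (F : Finset (Fin 5)) : spread (1 / 3) E5 F = spreadC 1 F := by
  unfold spread spreadC
  congr 2
  apply filter_congr
  intro e he
  rcases card_E5 e he with h | h
  · rw [h, ceil_third_two]; simp
  · rw [h, ceil_third_three]; simp

lemma spread_half (F : Finset (Fin 5)) : spread (1 / 2) E5 F = spreadC 2 F := by
  unfold spread spreadC
  congr 2
  apply filter_congr
  intro e he
  rcases card_E5 e he with h | h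
  · rw [h, ceil_half_two]; simp
  · rw [h, ceil_half_three]; simp

lemma lazy_of (p : ℝ) (c : ℕ) (hc : 1 ≤ c) (h : ∀ F, spread p E5 F = spreadC c F)
    (h2 : (spreadC c)^[4] {2} = univ) : lazyNumber p E5 = 1 := by
  have hf : spread p E5 = spreadC c := funext h
  have hmem : 1 ∈ {k | ∃ S : Finset (Fin 5), S.card = k ∧ IsLazyBurningSet p E5 S} :=
    ⟨{2}, by simp, 4, by rw [hf]; exact h2⟩
  have hle : lazyNumber p E5 ≤ 1 := Nat.sInf_le hmem
  have hne : lazyNumber p E5 ≠ 0 := by
    intro h0
    have := Nat.sInf_mem (s := {k | ∃ S : Finset (Fin 5), S.card = k ∧ IsLazyBurningSet p E5 S})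
      ⟨1, hmem⟩
    unfold lazyNumber at h0
    rw [h0] at this
    obtain ⟨S, hS, t, ht⟩ := this
    rw [card_eq_zero] at hS
    subst hS
    rw [hf] at ht
    have hempty : ∀ s : ℕ, (spreadC c)^[s] ∅ = ∅ := by
      intro s
      induction s with
      | zero => rfl
      | succ s ih =>
        rw [Function.iterate_succ_apply', ih]
        unfold spreadC
        simp only [empty_union, inter_empty, card_empty]
        rw [filter_false_of_mem]
        · simp
        · intro e _
          split_ifs <;> omega
    rw [hempty] at ht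
    exact absurd ht (by decide)
  omega

lemma fire_zero (p : ℝ) (u : ℕ → Fin 5) : fire p E5 u 0 = ∅ := rfl

lemma fire_succ (p : ℝ) (u : ℕ → Fin 5) (r : ℕ) :
    fire p E5 u (r + 1) = insert (u r) (spread p E5 (fire p E5 u r)) := rfl

/-- The burning number is two for the proportion `1/3`. -/
lemma burning_third : burningNumber (1 / 3) E5 = 2 := by
  have hmem : 2 ∈ {k | ∃ u : ℕ → Fin 5, IsBurningSequence (1 / 3) E5 k u} := by
    refine ⟨fun r => if r = 0 then 2 else 0, ?_, ?_⟩
    · intro r hr
      interval_cases r
      · simp [fire_zero]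
      · rw [fire_succ, fire_zero, spread_third]; decide
    · rw [fire_succ, fire_succ, fire_zero, spread_third, spread_third]; decide
  refine le_antisymm (Nat.sInf_le hmem) (le_csInf ⟨2, hmem⟩ ?_)
  rintro k ⟨u, -, hk⟩
  by_contra hlt
  have hk2 : k = 0 ∨ k = 1 := by omega
  rcases hk2 with rfl | rfl
  · rw [fire_zero] at hk
    exact absurd hk (by decide)
  · rw [fire_succ, fire_zero, spread_third] at hk
    have : ∀ a : Fin 5, insert a (spreadC 1 ∅) ≠ univ := by decide
    exact this _ hk

/-- The burning number is three for the proportion `1/2`. -/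
lemma burning_half : burningNumber (1 / 2) E5 = 3 := by
  have hmem : 3 ∈ {k | ∃ u : ℕ → Fin 5, IsBurningSequence (1 / 2) E5 k u} := by
    refine ⟨fun r => if r = 0 then 2 else if r = 1 then 0 else 4, ?_, ?_⟩
    · intro r hr
      interval_cases r
      · simp [fire_zero]
      · rw [fire_succ, fire_zero, spread_half]; decide
      · rw [fire_succ, fire_succ, fire_zero, spread_half, spread_half]; decide
    · rw [fire_succ, fire_succ, fire_succ, fire_zero, spread_half, spread_half, spread_half]
      decide
  refine le_antisymm (Nat.sInf_le hmem) (le_csInf ⟨3, hmem⟩ ?_)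
  rintro k ⟨u, -, hk⟩
  by_contra hlt
  have hk2 : k = 0 ∨ k = 1 ∨ k = 2 := by omega
  rcases hk2 with rfl | rfl | rfl
  · rw [fire_zero] at hk
    exact absurd hk (by decide)
  · rw [fire_succ, fire_zero, spread_half] at hk
    have : ∀ a : Fin 5, insert a (spreadC 2 ∅) ≠ univ := by decide
    exact this _ hk
  · rw [fire_succ, fire_succ, fire_zero, spread_half, spread_half] at hk
    have : ∀ a b : Fin 5, insert a (spreadC 2 (insert b (spreadC 2 ∅))) ≠ univ := by decide
    exact this _ _ hk

/-- There is a hypergraph on five vertices and proportions `0 < p < q < 1` with equal lazy burning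
numbers `b_{L,p} = b_{L,q} = 1` but different burning numbers `b_p = 2` and `b_q = 3`. -/
theorem result : ∃ (E : Finset (Finset (Fin 5))) (p q : ℝ), 0 < p ∧ p < q ∧ q < 1 ∧
    lazyNumber p E = 1 ∧ lazyNumber q E = 1 ∧ burningNumber p E = 2 ∧ burningNumber q E = 3 := by
  refine ⟨E5, 1 / 3, 1 / 2, by norm_num, by norm_num, by norm_num, ?_, ?_, burning_third,
    burning_half⟩
  · exact lazy_of _ 1 le_rfl spread_third (by decide)
  · exact lazy_of _ 2 (by norm_num) spread_half (by decide)

end Pool.Agent.Results.MP_6677ae_co.EqualLazyDifferentBurning
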